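import Pool.Agent.H23.CMC.Targets

/-!
# The fourth moment of the complete family: the final theorem from the rows of part G
-/

set_option autoImplicit false

open NumberField MeasureTheory Set Filter Complex
open scoped nonZeroDivisors Real

namespace Pool.Agent.H23.CMC

open Pool.Agent.H65.CM4 (Sq nm dg Pl rv)
open Pool.Agent.H65.CMC (Emb ty PrTo IsHk ms IsLk gg GM cG Km Idx cdc Fmc lc)

theorem pf_FIN (hXI : T_XIc) (hFM2 : T_FM2c) (hCO1 : T_CO1c) (hCO2 : T_CO2c) (hFX : T_FXc) :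
    Pool.Agent.H65.CMC.T_FINc := by
  refine ⟨?_, ?_⟩
  · intro k _ _ _ K _ _ _ Φ f m ψ h1 h2 h3 h4
    obtain ⟨-, L, -, -, -, hL, -⟩ := hXI k K Φ f m ψ ⟨h1, h2, h3, h4⟩
    exact ⟨L, hL⟩
  · intro k _ _ _ ε hε
    obtain ⟨C₁, A₁, hC₁, h1⟩ := hFM2 k ε hε
    obtain ⟨C₂, A₂, hC₂, h2⟩ := hCO1 k ε hε
    obtain ⟨C₃, A₃, hC₃, h3⟩ := hCO2 k ε hε
    set A : ℕ := A₁ + A₂ + A₃ with hA
    have hms : ∀ m : Pl k → ℤ, 0 ≤ ms m := fun m => Finset.sum_nonneg fun v _ => abs_nonneg _
    have hp : ∀ (m : Pl k → ℤ) (t : ℝ) (a : ℕ), a ≤ A →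
        (1 + |t| + ms m) ^ a ≤ (1 + |t| + ms m) ^ A := fun m t a ha => by
      refine pow_le_pow_right₀ ?_ ha
      have := hms m
      have := abs_nonneg t
      linarith
    refine ⟨C₁ + C₂ + C₃, A, ?_⟩
    intro X ι K _ _ _ Φ S f m L hX hF
    have hX0 : 0 < X := by linarith
    refine ⟨?_, ?_, ?_⟩
    · intro t
      have h := h1 X ι K Φ S f m L t hX hF
      have hle : ∑ x ∈ S, (‖L x (1 / 2 + t x * I)‖ / (1 + |t x| + ms (m x)) ^ A) ^ 4 ≤
          ∑ x ∈ S, (‖L x (1 / 2 + t x * I)‖ / (1 + |t x| + ms (m x)) ^ A₁) ^ 4 := by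
        refine Finset.sum_le_sum fun x _ => ?_
        have hb : 0 < (1 + |t x| + ms (m x)) ^ A₁ := by
          have := hms (m x)
          have := abs_nonneg (t x)
          positivity
        refine pow_le_pow_left₀ (div_nonneg (norm_nonneg _) (hb.le.trans (hp _ _ _ (by omega)))) ?_ 4
        exact div_le_div_of_nonneg_left (norm_nonneg _) hb (hp _ _ _ (by omega))
      refine hle.trans (h.trans ?_)
      refine mul_le_mul_of_nonneg_right (by linarith) (Real.rpow_nonneg hX0.le _)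
    · intro η hη hη8 hS
      have h := h2 X η ι K Φ S f m L hX hη hη8 hF (fun x hx => ?_)
      · refine h.trans ?_
        exact mul_le_mul_of_nonneg_right (by linarith) (Real.rpow_nonneg hX0.le _)
      · obtain ⟨t, ht⟩ := hS x hx
        refine ⟨t, lt_of_le_of_lt ?_ ht⟩
        have hc : 0 ≤ cdc k f x := by
          have := ((hFX k ι K Φ S f m L 0 X hF).1 x hx).2.2.2.1
          linarith
        exact mul_le_mul_of_nonneg_right (hp _ _ _ (by omega)) (Real.rpow_nonneg hc _)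
    · intro η T hη hη4 hT
      have h := h3 X η ι K Φ S f m L T hX hη hη4 hF (fun q hq => ?_)
      · refine h.trans ?_
        exact mul_le_mul_of_nonneg_right (by linarith) (Real.rpow_nonneg hX0.le _)
      · obtain ⟨x, hx, h4, h5, t, ht⟩ := hT q hq
        refine ⟨x, hx, h4, h5, t, lt_of_le_of_lt ?_ ht⟩
        have hc : 0 ≤ cdc k f x := by
          have := ((hFX k ι K Φ S f m L 0 X hF).1 x hx).2.2.2.1
          linarith
        exact mul_le_mul_of_nonneg_right (hp _ _ _ (by omega)) (Real.rpow_nonneg hc _)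

end Pool.Agent.H23.CMC
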