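import Pool.Agent.H23.CMC.Targets
import Pool.Agent.H23.CM4.PBD

/-!
# The fourth moment of the complete family, row G_PBD: the bound for the `L`-function by the partial
sums of the coefficients
-/

set_option autoImplicit false

open NumberField MeasureTheory Set Filter Complex
open scoped nonZeroDivisors Real

namespace Pool.Agent.H23.CMC

open Pool.Agent.H65.CM4 (Sq nm dg Pl rv)
open Pool.Agent.H65.CMC (Emb ty PrTo IsHk ms IsLk gg GM cG Km Idx cdc Fmc lc)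
open Pool.Agent.H23.CM4 (nJ Jd Nr wB)
open Pool.Agent.H23.CM4.PBDP

theorem pf_PBD (hAFE : T_AFEc) (hKRB : T_KRBc) (hGLN : T_GLNc) (hSPT : T_SPTc) (hDCX : T_DCX)
    (hCJ : T_CJ) (oABS : Pool.Agent.H23.CM4.T_ABS) (_oDSM : Pool.Agent.H23.CM4.T_DSM) :
    T_PBDc := by
  intro k _ _ _ B κ hκ hκ8
  obtain ⟨C₁, j₁, hC₁, hK⟩ := hKRB k (B + 4) κ hκ hκ8
  obtain ⟨C₂, j₂, hC₂, hG⟩ := hGLN k
  obtain ⟨C₃, hC₃, hS⟩ := hSPT (2 * dg k)
  refine ⟨2 * C₁ * C₂, j₁ + j₂, by positivity, ?_⟩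
  intro K _ _ _ Φ f m ψ L hχ hL s hs
  obtain ⟨-, hrk, hDf, hTm⟩ := hDCX k K hχ.rk
  obtain ⟨hD1', -⟩ := hDf f hχ.hk.fne
  obtain ⟨hT1', hcG0, hcG1, hTc1, -⟩ := hTm m s
  obtain ⟨-, hψ1, -⟩ := hCJ k K Φ f m ψ hχ
  have hc1 : ∀ J : (Ideal (𝓞 K))⁰, ‖cf ψ J‖ ≤ 1 := fun J => hψ1 _
  obtain ⟨hSm, hSc, hSb⟩ := hS K hrk (cf ψ) hc1
  obtain ⟨hs1, hs2⟩ := abs_le.1 hs
  have hs8 : |s.re - 1 / 2| ≤ 1 / 8 := hs.trans hκ8
  set D : ℝ := dC K f with hD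
  have hD1 : 1 ≤ D := hD1'
  have hD0 : 0 < D := by linarith
  set T : ℝ := Tc m s with hT
  have hT1 : 1 ≤ T := hT1'
  have hT0 : 0 < T := by linarith
  set q : ℝ := Real.sqrt D with hq
  have hq1 : 1 ≤ q := by
    rw [hq, Real.one_le_sqrt]
    exact hD1
  have hq0 : 0 < q := by linarith
  set E₀ : ℝ := cG m s.im with hE₀
  have hE₀p : 0 < E₀ := hcG0
  obtain ⟨ε, hε, hA⟩ := hAFE k K Φ f m ψ L hχ hL
  obtain ⟨a, a', ha, ha', hval⟩ := hA s (by linarith) (by linarith)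
  have hI : IntegrableOn (fun x : ℝ => ‖Sc (cf ψ) x‖ * x ^ (-(3 / 2) : ℝ) *
      ((1 + x / q) ^ (B + 4))⁻¹) (Ioi 1) :=
    int_h (fun x => ‖Sc (cf ψ) x‖) hSm.norm (fun x => norm_nonneg _) C₃ q B hC₃ hq1 hSb
  refine ⟨hI, ?_⟩
  change ‖L s‖ ≤ 2 * C₁ * C₂ * T ^ (j₁ + j₂) * D ^ (2 * κ) *
    ∫ x in Ioi (1 : ℝ), ‖Sc (cf ψ) x‖ * x ^ (-(3 / 2) : ℝ) * ((1 + x / q) ^ (B + 4))⁻¹
  set I : ℝ := ∫ x in Ioi (1 : ℝ), ‖Sc (cf ψ) x‖ * x ^ (-(3 / 2) : ℝ) *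
    ((1 + x / q) ^ (B + 4))⁻¹ with hIdef
  have hI0 : 0 ≤ I := by
    refine setIntegral_nonneg measurableSet_Ioi fun x hx => ?_
    rw [mem_Ioi] at hx
    have : 0 < x := by linarith
    positivity
  set G : ℝ := C₁ * T ^ j₁ * E₀ with hGdef
  have hG0 : 0 ≤ G := by positivity
  have ha1 : ‖a‖ ≤ G * q ^ (1 / 2 + 2 * κ) * I := by
    obtain ⟨hc, hd⟩ := hK m s hs
    refine half oABS B κ G q (fun r : ℝ => Km m s (r : ℂ)) (cf ψ) (fun x => ‖Sc (cf ψ) x‖) a hκ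
      hκ8 hG0 hq1 hc hd hc1 (fun x => rfl) hI ha
  have ha2 : ‖a'‖ ≤ G * q ^ (1 / 2 + 2 * κ) * I := by
    have hs' : |(1 - s).re - 1 / 2| ≤ κ := by
      rw [sub_re, one_re, abs_le]
      constructor <;> linarith
    obtain ⟨hc, hd⟩ := hK m (1 - s) hs'
    rw [hTc1, hcG1] at hd
    refine half oABS B κ G q (fun r : ℝ => Km m (1 - s) (r : ℂ))
      (fun J => (starRingEnd ℂ) (cf ψ J)) (fun x => ‖Sc (cf ψ) x‖) a' hκ hκ8 hG0
      hq1 hc hd (fun J => ?_) (fun x => ?_) hI ha'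
    · rw [RCLike.norm_conj]
      exact hc1 J
    · have h := hSc x
      rw [Sc] at h
      rw [h, RCLike.norm_conj]
  have hnorm : ‖GM m s‖ * D ^ (s.re / 2) * ‖L s‖ ≤ 2 * (G * q ^ (1 / 2 + 2 * κ) * I) := by
    have h1 : ‖GM m s * (D : ℂ) ^ (s / 2) * L s‖ = ‖GM m s‖ * D ^ (s.re / 2) * ‖L s‖ := by
      rw [norm_mul, norm_mul, Complex.norm_cpow_eq_rpow_re_of_pos hD0]
      congr 3
      have h2 : s / 2 = ((1 / 2 : ℝ) : ℂ) * s := by push_cast; ring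
      rw [h2, Complex.re_ofReal_mul]
      ring
    rw [← h1, hval]
    calc ‖a + ε * a'‖ ≤ ‖a‖ + ‖ε * a'‖ := norm_add_le _ _
      _ ≤ ‖a‖ + ‖a'‖ := by
          rw [norm_mul]
          have := mul_le_of_le_one_left (norm_nonneg a') hε
          linarith
      _ ≤ _ := by linarith
  have hGs := hG m s hs8
  rw [← hT, ← hE₀] at hGs
  have hGpos : 0 < ‖GM m s‖ := by
    by_contra hcon
    push Not at hcon
    have h1 : C₂ * T ^ j₂ * ‖GM m s‖ ≤ 0 :=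
      mul_nonpos_of_nonneg_of_nonpos (by positivity) hcon
    linarith
  have hqD : q ^ (1 / 2 + 2 * κ) ≤ D ^ (1 / 4 - κ / 2) * D ^ (2 * κ) := by
    rw [hq, Real.sqrt_eq_rpow, ← Real.rpow_mul hD0.le, ← Real.rpow_add hD0]
    exact Real.rpow_le_rpow_of_exponent_le hD1 (by linarith)
  have hDl : D ^ (1 / 4 - κ / 2) ≤ D ^ (s.re / 2) :=
    Real.rpow_le_rpow_of_exponent_le hD1 (by linarith)
  have hDp : 0 < D ^ (1 / 4 - κ / 2) := Real.rpow_pos_of_pos hD0 _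
  have hDκ : 0 < D ^ (2 * κ) := Real.rpow_pos_of_pos hD0 _
  have hmain : (‖GM m s‖ * D ^ (1 / 4 - κ / 2)) * ‖L s‖ ≤
      (‖GM m s‖ * D ^ (1 / 4 - κ / 2)) *
        (2 * C₁ * C₂ * T ^ (j₁ + j₂) * D ^ (2 * κ) * I) := by
    calc (‖GM m s‖ * D ^ (1 / 4 - κ / 2)) * ‖L s‖ ≤
          (‖GM m s‖ * D ^ (s.re / 2)) * ‖L s‖ := by
          refine mul_le_mul_of_nonneg_right ?_ (norm_nonneg _)
          exact mul_le_mul_of_nonneg_left hDl hGpos.le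
      _ ≤ 2 * (G * q ^ (1 / 2 + 2 * κ) * I) := hnorm
      _ = (2 * C₁ * T ^ j₁ * q ^ (1 / 2 + 2 * κ) * I) * E₀ := by
          rw [hGdef]
          ring
      _ ≤ (2 * C₁ * T ^ j₁ * (D ^ (1 / 4 - κ / 2) * D ^ (2 * κ)) * I) *
          (C₂ * T ^ j₂ * ‖GM m s‖) := by
          refine mul_le_mul ?_ hGs hE₀p.le (by positivity)
          refine mul_le_mul_of_nonneg_right ?_ hI0
          exact mul_le_mul_of_nonneg_left hqD (by positivity)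
      _ = _ := by
          rw [pow_add]
          ring
  exact le_of_mul_le_mul_left hmain (by positivity)

end Pool.Agent.H23.CMC
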