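import Pool.Agent.H23.CMC.RES

/-!
# The fourth moment of the complete family, row G_PRM: primitivity at the primes of `K`
-/

set_option autoImplicit false

open NumberField MeasureTheory Set Filter Complex
open scoped nonZeroDivisors Real

namespace Pool.Agent.H23.CMC

open Pool.Agent.H65.CM4 (Sq nm dg Pl rv)
open Pool.Agent.H65.CMC (Emb ty PrTo IsHk ms IsLk gg GM cG Km Idx cdc Fmc lc)

/-- the infinity type is multiplicative -/
theorem ty_mul {k : Type} [Field k] [NumberField k] {K : Type} [Field K] [NumberField K]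
    (Φ : Pl k → K →+* ℂ) (m : Pl k → ℤ) (a b : K) : ty Φ m (a * b) = ty Φ m a * ty Φ m b := by
  unfold ty
  rw [← Finset.prod_mul_distrib]
  refine Finset.prod_congr rfl fun v _ => ?_
  rw [map_mul, map_mul, mul_div_mul_comm, mul_zpow]

theorem pf_PRM (hRES : T_RES) (_hDCX : T_DCX) : T_PRM := by
  intro k _ _ _ K _ _ _ Φ f m ψ hχ Q hQ hfQ
  set j := algebraMap (𝓞 k) (𝓞 K) with hj
  have hf0 : f ≠ ⊥ := hχ.hk.fne
  set P : Ideal (𝓞 k) := Q.comap j with hPdef
  have hP : P.IsPrime := Ideal.comap_isPrime j Q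
  have hfP : f ≤ P := Ideal.map_le_iff_le_comap.1 hfQ
  have hP0 : P ≠ ⊥ := fun h => hf0 (le_bot_iff.1 (h ▸ hfP))
  have hPm : P.IsMaximal := hP.isMaximal hP0
  obtain ⟨g, hg⟩ := Ideal.dvd_iff_le.2 hfP
  have hPQ : P.map j ≤ Q := Ideal.map_comap_le
  obtain ⟨R, hR⟩ := Ideal.dvd_iff_le.2 hPQ
  have hF : fK K f = P.map j * g.map j := by rw [fK, hg, Ideal.map_mul]
  have hPmap0 : P.map j ≠ ⊥ := by
    intro h
    rw [Ideal.map_eq_bot_iff_of_injective
      (FaithfulSMul.algebraMap_injective (𝓞 k) (𝓞 K))] at h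
    exact hP0 h
  obtain ⟨hR1, hR2⟩ := hRES k K hχ.rk P Q R hP hP0 hQ hR.symm
  by_contra hcon
  push Not at hcon
  obtain ⟨a, n, ha, han, hψ⟩ := hχ.hk.prm P hP ⟨g, hg⟩
  have haF : Ideal.span {a} ⊔ fK K f = ⊤ := ha.2
  -- the element `a` is not in a proper ideal containing `F`
  have hout : ∀ S : Ideal (𝓞 K), fK K f ≤ S → S ≠ ⊤ → a ∉ S := by
    intro S h1 h2 h3
    refine h2 (top_le_iff.1 ?_)
    rw [← haF]
    exact sup_le ((Ideal.span_singleton_le_iff_mem _).2 h3) h1
  -- step 1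
  have hd : a - j n ∈ g.map j := by
    have h1 : Ideal.span {a - j n} * P.map j ≤ P.map j * g.map j := by
      rw [← hF, Ideal.map, Ideal.span_mul_span', Ideal.span_le]
      rintro _ ⟨x, hx, _, ⟨y, hy, rfl⟩, rfl⟩
      rw [mem_singleton_iff] at hx
      subst hx
      exact han y hy
    rw [mul_comm] at h1
    have h3 : g.map j ∣ Ideal.span {a - j n} :=
      (mul_dvd_mul_iff_left hPmap0).1 (Ideal.dvd_iff_le.2 h1)
    exact (Ideal.span_singleton_le_iff_mem _).1 (Ideal.le_of_dvd h3)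
  -- step 2
  have hstep : ∀ y ∈ g.map j, ∃ z ∈ g, y - j z ∈ g.map j * R := by
    intro y hy
    rw [Ideal.map] at hy
    refine Submodule.span_induction (p := fun y _ => ∃ z ∈ g, y - j z ∈ g.map j * R)
      ?_ ?_ ?_ ?_ hy
    · rintro _ ⟨z, hz, rfl⟩
      exact ⟨z, hz, by rw [sub_self]; exact Ideal.zero_mem _⟩
    · exact ⟨0, g.zero_mem, by rw [map_zero, sub_self]; exact Ideal.zero_mem _⟩
    · rintro x y - - ⟨z, hz, hz'⟩ ⟨w, hw, hw'⟩
      refine ⟨z + w, g.add_mem hz hw, ?_⟩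
      have e : x + y - j (z + w) = (x - j z) + (y - j w) := by rw [map_add]; ring
      rw [e]
      exact Ideal.add_mem _ hz' hw'
    · rintro r x - ⟨z, hz, hz'⟩
      obtain ⟨n', hn'⟩ := hR2 r
      refine ⟨n' * z, g.mul_mem_left _ hz, ?_⟩
      have e : r • x - j (n' * z) = r * (x - j z) + j z * (r - j n') := by
        rw [map_mul, smul_eq_mul]; ring
      rw [e]
      exact Ideal.add_mem _ (Ideal.mul_mem_left _ _ hz')
        (Ideal.mul_mem_mul (Ideal.mem_map_of_mem j hz) hn')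
  -- step 3
  have hgen : ∀ n₁ : 𝓞 k, a - j n₁ ∈ g.map j * R → (R = ⊤ → ¬ g ≤ P → n₁ ∉ P) →
      Ideal.span {n₁} ⊔ f = ⊤ := by
    intro n₁ h1 h2
    by_contra hne
    obtain ⟨p, hp, hle⟩ := Ideal.exists_le_maximal _ hne
    have hn₁p : n₁ ∈ p := (Ideal.span_singleton_le_iff_mem _).1 (le_sup_left.trans hle)
    have hfp : f ≤ p := le_sup_right.trans hle
    by_cases hgp : g ≤ p
    · have h3 : a - j n₁ ∈ p.map j := by
        have h30 : a - j n₁ ∈ g.map j := Ideal.mul_le_left h1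
        exact Ideal.map_mono hgp h30
      have h4 : a ∈ p.map j := by
        have h5 := Ideal.add_mem _ h3 (Ideal.mem_map_of_mem j hn₁p)
        rwa [sub_add_cancel] at h5
      refine hout (p.map j) (Ideal.map_mono hfp) ?_ h4
      intro h5
      have h6 := absNorm_map_two (K := K) hχ.rk p
      rw [← hj, h5, Ideal.absNorm_top] at h6
      have h7 : Ideal.absNorm p = 1 := by
        rcases pow_eq_one_iff.1 h6.symm with h8 | h8
        · exact h8
        · exact absurd h8 (by norm_num)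
      exact hp.ne_top (Ideal.absNorm_eq_one_iff.1 h7)
    · have h3 : P ≤ p := by
        have h4 : P * g ≤ p := hg ▸ hfp
        rcases (Ideal.IsPrime.mul_le hp.isPrime).1 h4 with h5 | h5
        · exact h5
        · exact absurd h5 hgp
      have h4 : P = p := hPm.eq_of_le hp.ne_top h3
      rw [← h4] at hn₁p hgp
      by_cases hRt : R = ⊤
      · exact h2 hRt hgp hn₁p
      · have h5 : a ∈ R := by
          have h6 : a - j n₁ ∈ R := Ideal.mul_le_right h1
          have h7 : j n₁ ∈ R := by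
            have h8 : P.map j ≤ R := hR ▸ Ideal.mul_le_right
            exact h8 (Ideal.mem_map_of_mem j hn₁p)
          have h9 := Ideal.add_mem _ h6 h7
          rwa [sub_add_cancel] at h9
        refine hout R ?_ hRt h5
        rw [hF, hR]
        exact Ideal.mul_le_left.trans Ideal.mul_le_right
  obtain ⟨z, hz, hdz⟩ := hstep _ hd
  have hn₂ : ∃ n₂ : 𝓞 k, a - j n₂ ∈ g.map j * R ∧ Ideal.span {n₂} ⊔ f = ⊤ := by
    have h1 : a - j (n + z) ∈ g.map j * R := by
      have e : a - j (n + z) = a - j n - j z := by rw [map_add]; ring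
      rw [e]
      exact hdz
    by_cases hc : R = ⊤ ∧ ¬ g ≤ P ∧ n + z ∈ P
    · obtain ⟨hc1, hc2, hc3⟩ := hc
      obtain ⟨z', hz', hz'P⟩ := Set.not_subset.1 hc2
      refine ⟨n + z + z', ?_, ?_⟩
      · have e : a - j (n + z + z') = a - j (n + z) - j z' := by rw [map_add j (n + z)]; ring
        rw [e]
        refine Ideal.sub_mem _ h1 ?_
        rw [hc1, Ideal.mul_top]
        exact Ideal.mem_map_of_mem j hz'
      · refine hgen _ ?_ ?_
        · have e : a - j (n + z + z') = a - j (n + z) - j z' := by rw [map_add j (n + z)]; ring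
          rw [e]
          refine Ideal.sub_mem _ h1 ?_
          rw [hc1, Ideal.mul_top]
          exact Ideal.mem_map_of_mem j hz'
        · intro _ _ h4
          have h5 := P.sub_mem h4 hc3
          rw [add_sub_cancel_left] at h5
          exact hz'P h5
    · refine ⟨n + z, h1, hgen _ h1 fun h2 h3 h4 => hc ⟨h2, h3, h4⟩⟩
  obtain ⟨n₂, hn₂, hcop⟩ := hn₂
  -- step 4
  have h1 : (1 : 𝓞 k) ∈ Ideal.span {n₂} ⊔ f := by rw [hcop]; trivial
  obtain ⟨c, y, hy, hcy⟩ := Ideal.mem_span_singleton_sup.1 h1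
  have hjy : j y ∈ fK K f := Ideal.mem_map_of_mem j hy
  have hjc : j c * j n₂ + j y = 1 := by rw [← map_mul, ← map_add, hcy, map_one]
  have hcF : Ideal.span {j c} ⊔ fK K f = ⊤ := by
    rw [Ideal.eq_top_iff_one, ← hjc]
    refine Ideal.add_mem _ ?_ ?_
    · refine Ideal.mul_mem_right _ _ ?_
      exact Ideal.mem_sup_left (Ideal.mem_span_singleton_self _)
    · exact Ideal.mem_sup_right hjy
  have hbF : Ideal.span {a * j c} ⊔ fK K f = ⊤ := by
    rw [← Ideal.span_singleton_mul_span_singleton]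
    rw [← Ideal.isCoprime_iff_sup_eq] at haF hcF ⊢
    exact haF.mul_left hcF
  have hFtop : fK K f ≠ ⊤ := fun h => hQ.ne_top (top_le_iff.1 (h ▸ hfQ))
  have hb0 : a * j c ≠ 0 := by
    intro h
    rw [h, Set.singleton_zero, Ideal.span_zero, bot_sup_eq] at hbF
    exact hFtop hbF
  have hc0 : j c ≠ 0 := right_ne_zero_of_mul hb0
  have hbQ : ∀ x ∈ Q, (a * j c - 1) * x ∈ fK K f := by
    intro x hx
    have e : (a * j c - 1) * x = j c * ((a - j n₂) * x) + -(j y * x) := by
      rw [← hjc]; ring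
    rw [e]
    refine Ideal.add_mem _ (Ideal.mul_mem_left _ _ ?_) (Ideal.neg_mem_iff _ |>.2
      (Ideal.mul_mem_right _ _ hjy))
    have h2 := Ideal.mul_mem_mul hn₂ hx
    have e2 : g.map j * R * Q = fK K f := by
      rw [hF, hR]
      ring
    rwa [e2] at h2
  have hmain := hcon (a * j c) hb0 hbF hbQ
  have hpc : ψ (Ideal.span {j c}) = ty Φ m ((j c : 𝓞 K) : K) := by
    refine hχ.hk.pri (j c) c ⟨?_, hcF⟩ ?_
    · rw [Ne, Ideal.span_singleton_eq_bot]
      exact hc0
    · rw [sub_self]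
      exact Ideal.zero_mem _
  have hne : ψ (Ideal.span {j c}) ≠ 0 := by
    have h2 := hχ.hk.nrm (Ideal.span {j c}) ⟨by
      rw [Ne, Ideal.span_singleton_eq_bot]
      exact hc0, hcF⟩
    intro h3
    rw [h3, norm_zero] at h2
    exact zero_ne_one h2
  have hcoe : ((a * j c : 𝓞 K) : K) = (a : K) * ((j c : 𝓞 K) : K) := rfl
  rw [← Ideal.span_singleton_mul_span_singleton, hχ.hk.mul, hcoe, ty_mul, ← hpc] at hmain
  exact hψ (mul_right_cancel₀ hne hmain)

end Pool.Agent.H23.CMC
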