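import Pool.Agent.H23.CMC.Targets

/-!
# The fourth moment of the complete family, row G_RES: residues
-/

set_option autoImplicit false

open NumberField MeasureTheory Set Filter Complex
open scoped nonZeroDivisors Real

namespace Pool.Agent.H23.CMC

/-- the norm of an extended ideal -/
theorem absNorm_map_two {k : Type} [Field k] [NumberField k] {K : Type} [Field K] [NumberField K]
    [Algebra k K] (hK : Module.finrank k K = 2) (P : Ideal (𝓞 k)) :
    Ideal.absNorm (P.map (algebraMap (𝓞 k) (𝓞 K))) = Ideal.absNorm P ^ 2 := by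
  rw [Ideal.absNorm_algebraMap, ← IsFractionRing.finrank_eq (𝓞 k) k (𝓞 K) K, hK]

theorem absNorm_card {K : Type} [Field K] [NumberField K] (S : Ideal (𝓞 K)) :
    Ideal.absNorm S = Nat.card (𝓞 K ⧸ S) := rfl

theorem pf_RES : T_RES := by
  intro k _ _ K _ _ _ hK P Q R hP hP0 hQ hQR
  set j := algebraMap (𝓞 k) (𝓞 K) with hj
  have hPm : P.IsMaximal := hP.isMaximal hP0
  have hPQ : P.map j ≤ Q := hQR ▸ Ideal.mul_le_left
  have hPR : P.map j ≤ R := hQR ▸ Ideal.mul_le_right
  have hmap0 : P.map j ≠ ⊥ := by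
    intro h
    rw [Ideal.map_eq_bot_iff_of_injective
      (FaithfulSMul.algebraMap_injective (𝓞 k) (𝓞 K))] at h
    exact hP0 h
  have key : ∀ S : Ideal (𝓞 K), P.map j ≤ S → S ≠ ⊤ → S.comap j = P := by
    intro S h1 h2
    have h3 : P ≤ S.comap j := Ideal.map_le_iff_le_comap.1 h1
    exact (hPm.eq_of_le (Ideal.comap_ne_top j h2) h3).symm
  have fin : ∀ S : Ideal (𝓞 K), P.map j ≤ S → Finite (𝓞 K ⧸ S) := by
    intro S h1
    refine Nat.finite_of_card_ne_zero ?_
    rw [← absNorm_card, Ne, Ideal.absNorm_eq_zero_iff]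
    rintro rfl
    exact hmap0 (le_bot_iff.1 h1)
  have inj : ∀ (S : Ideal (𝓞 K)) (h1 : P.map j ≤ S), S ≠ ⊤ →
      Function.Injective (Ideal.quotientMap S j (Ideal.map_le_iff_le_comap.1 h1)) := by
    intro S h1 h2
    exact Ideal.quotientMap_injective' (key S h1 h2).le
  refine ⟨?_, ?_⟩
  · by_cases hR : R = ⊤
    · exact Or.inl hR
    · refine Or.inr fun n hn => ?_
      rw [← key R hPR hR]
      exact hn
  · intro w
    by_cases hR : R = ⊤
    · exact ⟨0, by rw [hR]; trivial⟩
    · have hQR' := congrArg Ideal.absNorm hQR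
      rw [map_mul, absNorm_map_two hK] at hQR'
      have hP1 : Ideal.absNorm P ≠ 0 := by
        rw [Ne, Ideal.absNorm_eq_zero_iff]
        exact hP0
      have hfQ := fin Q hPQ
      have hfR := fin R hPR
      have hPc : Ideal.absNorm P = Nat.card (𝓞 k ⧸ P) := rfl
      have h1 : Ideal.absNorm P ≤ Ideal.absNorm Q := by
        rw [absNorm_card Q, hPc]
        exact Nat.card_le_card_of_injective _ (inj Q hPQ hQ.ne_top)
      have h2 : Ideal.absNorm R ≤ Ideal.absNorm P := by
        by_contra hcon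
        push Not at hcon
        have h3 : Ideal.absNorm P * Ideal.absNorm P < Ideal.absNorm Q * Ideal.absNorm R :=
          Nat.mul_lt_mul_of_le_of_lt h1 hcon (by omega)
        rw [hQR', pow_two] at h3
        exact lt_irrefl _ h3
      have h3 := (inj R hPR hR).bijective_of_nat_card_le (by rw [← hPc, ← absNorm_card R]; exact h2)
      obtain ⟨x, hx⟩ := h3.2 (Ideal.Quotient.mk R w)
      obtain ⟨n, rfl⟩ := Ideal.Quotient.mk_surjective x
      rw [Ideal.quotientMap_mk] at hx
      refine ⟨n, ?_⟩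
      exact Ideal.Quotient.eq.1 hx.symm

end Pool.Agent.H23.CMC
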