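import Pool.Agent.H23.CMC.Targets
import Pool.Agent.H38.CM4.SM2

/-! SM2c: the second moment, fixed weight. -/

set_option autoImplicit false

open NumberField MeasureTheory Set Filter Complex
open scoped nonZeroDivisors Real

namespace Pool.Agent.H23.CMC

open Pool.Agent.H65.CM4 (Sq nm dg Pl rv)
open Pool.Agent.H65.CMC (Emb ty PrTo IsHk ms IsLk gg GM cG Km Idx cdc Fmc lc)

theorem pf_SM2 (hTMF : Pool.Agent.H65.CMC.T_TMFm) (hMUL : T_MULc) (hFX : T_FXc)
    (oJDM : Pool.Agent.H23.CM4.T_JDM) : T_SM2c := by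
  intro k _ _ _ ε hε
  obtain ⟨b, hb, h⟩ := hTMF k
  obtain ⟨κ, hκ0, hκ1, δ, hδ, C, j, hC, h1⟩ := h ε hε
  refine ⟨κ, hκ0, hκ1, C, j, hC, ?_⟩
  intro s X ι K _ _ _ Φ S f m F hs hX hF
  have h2 := h1 s X 1 (fun _ => 1) ι K Φ S f m F hs hX le_rfl
    (Real.one_le_rpow hX (by positivity)) (fun _ => by simp) hF
  rw [mul_one] at h2
  refine le_trans (le_of_eq ?_) h2
  refine Finset.sum_congr rfl fun p hp => ?_
  have hk := ((hFX k ι K Φ S f (fun _ => m) F (X / 4) X hF).1 p hp).1.hk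
  rw [Pool.Agent.H38.CM4.sq_one k oJDM b, Finset.sum_singleton,
    (hMUL k (K p.1) p.2 hk.one hk.mul).1]
  simp

end Pool.Agent.H23.CMC
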