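import Pool.Agent.H23.CMC.Targets

/-!
# The fourth moment of the complete family, row G_XI: the completed `L`-function
-/

set_option autoImplicit false

open NumberField MeasureTheory Set Filter Complex
open scoped nonZeroDivisors Real Topology

namespace Pool.Agent.H23.CMC

open Pool.Agent.H65.CM4 (Sq nm dg Pl rv)
open Pool.Agent.H65.CMC (Emb ty PrTo IsHk ms IsLk gg GM cG Km Idx cdc Fmc lc)
open Pool.Agent.H23.CM4 (nJ Jd Nr wB)

namespace XIP

/-- one side of the completed function -/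
noncomputable def PE (n : ℕ) (g : ℂ → ℂ) (D : ℝ) (E : ℂ → ℂ) (s : ℂ) : ℂ :=
  (s * (s - 1)) ^ (n - 1) * g s * (D : ℂ) ^ (s / 2) * E s

theorem pe_diff (n : ℕ) (g : ℂ → ℂ) (D : ℝ) (hD : 0 < D) (E : ℂ → ℂ) (hE : Differentiable ℂ E)
    (s : ℂ) (hg : DifferentiableAt ℂ g s) : DifferentiableAt ℂ (PE n g D E) s := by
  have hDc : (D : ℂ) ≠ 0 := by exact_mod_cast hD.ne'
  unfold PE
  have h1 : DifferentiableAt ℂ (fun s : ℂ => (s * (s - 1)) ^ (n - 1)) s := by fun_prop
  have h2 : DifferentiableAt ℂ (fun s : ℂ => (D : ℂ) ^ (s / 2)) s :=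
    (differentiableAt_id.div_const 2).const_cpow (Or.inl hDc)
  exact ((h1.mul hg).mul h2).mul (hE s)

theorem pe_bound (n : ℕ) (g : ℂ → ℂ) (D : ℝ) (hD : 1 ≤ D) (E : ℂ → ℂ) (b Cg CE AE : ℝ)
    (hb : 1 ≤ b)
    (hg : ∀ s : ℂ, 1 / 4 ≤ s.re → s.re ≤ b → ‖g s‖ ≤ Cg)
    (hE : ∀ s : ℂ, |s.re| ≤ b → ‖E s‖ ≤ CE * Real.exp (AE * |s.im|)) :
    ∃ C : ℝ, 0 ≤ C ∧ ∀ s : ℂ, 1 / 2 ≤ s.re → s.re ≤ b →
      ‖PE n g D E s‖ ≤ C * Real.exp ((|AE| + 1) * |s.im|) := by
  have hD0 : 0 < D := by linarith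
  refine ⟨((2 * (n - 1)).factorial : ℝ) * Real.exp (2 * b) * |Cg| * D ^ b * |CE|, by positivity,
    fun s hs hsb => ?_⟩
  have hre : |s.re| ≤ b := by rw [abs_le]; constructor <;> linarith
  have h1 : ‖s‖ ≤ b + |s.im| := (norm_le_abs_re_add_abs_im s).trans (by linarith)
  have h2 : ‖s - 1‖ ≤ b + |s.im| := by
    refine (norm_le_abs_re_add_abs_im (s - 1)).trans ?_
    rw [sub_re, sub_im, one_re, one_im, sub_zero]
    have : |s.re - 1| ≤ b := by rw [abs_le]; constructor <;> linarith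
    linarith
  have hb0 : 0 ≤ b + |s.im| := by positivity
  have k1 : ‖(s * (s - 1)) ^ (n - 1)‖ ≤
      ((2 * (n - 1)).factorial : ℝ) * (Real.exp (2 * b) * Real.exp |s.im|) := by
    rw [norm_pow, norm_mul]
    calc (‖s‖ * ‖s - 1‖) ^ (n - 1) ≤ ((b + |s.im|) * (b + |s.im|)) ^ (n - 1) := by gcongr
      _ = (b + |s.im|) ^ (2 * (n - 1)) := by rw [← pow_two, ← pow_mul]
      _ ≤ ((2 * (n - 1)).factorial : ℝ) * Real.exp (b + |s.im|) := by
          have := Real.pow_div_factorial_le_exp (b + |s.im|) hb0 (2 * (n - 1))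
          rw [div_le_iff₀ (by positivity)] at this
          linarith
      _ ≤ _ := by
          rw [← Real.exp_add]
          gcongr
          linarith
  have k2 : ‖g s‖ ≤ |Cg| := (hg s (by linarith) hsb).trans (le_abs_self _)
  have k3 : ‖(D : ℂ) ^ (s / 2)‖ ≤ D ^ b := by
    rw [Complex.norm_cpow_eq_rpow_re_of_pos hD0]
    refine Real.rpow_le_rpow_of_exponent_le hD ?_
    have h3 : s / 2 = ((1 / 2 : ℝ) : ℂ) * s := by push_cast; ring
    rw [h3, Complex.re_ofReal_mul]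
    linarith
  have k4 : ‖E s‖ ≤ |CE| * Real.exp (|AE| * |s.im|) := by
    refine (hE s hre).trans ?_
    have h4 : AE * |s.im| ≤ |AE| * |s.im| :=
      mul_le_mul_of_nonneg_right (le_abs_self _) (abs_nonneg _)
    calc CE * Real.exp (AE * |s.im|) ≤ |CE| * Real.exp (AE * |s.im|) :=
          mul_le_mul_of_nonneg_right (le_abs_self _) (Real.exp_pos _).le
      _ ≤ _ := mul_le_mul_of_nonneg_left (Real.exp_le_exp.2 h4) (abs_nonneg _)
  unfold PE
  rw [norm_mul, norm_mul, norm_mul]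
  calc ‖(s * (s - 1)) ^ (n - 1)‖ * ‖g s‖ * ‖(D : ℂ) ^ (s / 2)‖ * ‖E s‖
      ≤ (((2 * (n - 1)).factorial : ℝ) * (Real.exp (2 * b) * Real.exp |s.im|)) * |Cg| * D ^ b *
        (|CE| * Real.exp (|AE| * |s.im|)) := by gcongr
    _ = (((2 * (n - 1)).factorial : ℝ) * Real.exp (2 * b) * |Cg| * D ^ b * |CE|) *
        (Real.exp (|AE| * |s.im|) * Real.exp |s.im|) := by ring
    _ = _ := by
        rw [← Real.exp_add]
        congr 2
        ring

end XIP

open XIP in
theorem pf_XI (hFE : T_FEc) (hGMP : T_GMP) (hCJ : T_CJ) (hDCX : T_DCX) : T_XIc := by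
  intro k _ _ _ K _ _ _ Φ f m ψ hχ
  obtain ⟨hn0, -, hDf, -⟩ := hDCX k K hχ.rk
  obtain ⟨hD1', -⟩ := hDf f hχ.hk.fne
  set D : ℝ := dC K f with hD
  have hD1 : 1 ≤ D := hD1'
  have hD0 : 0 < D := by linarith
  have hDc : (D : ℂ) ≠ 0 := by exact_mod_cast hD0.ne'
  obtain ⟨hχ', hψ1, -, hGMm, hgMm⟩ := hCJ k K Φ f m ψ hχ
  obtain ⟨L, E, ε, hε, hE, hLE, hLent, hLsum, hEgr, hFE1⟩ := hFE k K Φ f m ψ hχ
  obtain ⟨L', E', ε', hε', hE', hLE', -, hLsum', hEgr', -⟩ := hFE k K Φ f (-m) _ hχ'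
  obtain ⟨g1, g2, g3, g4, g5, g6, -⟩ := hGMP k m
  set g : ℂ → ℂ := gM m with hg
  set n : ℕ := dg k with hn
  have hne0 : ∀ s : ℂ, 1 < s.re → s ≠ 0 ∧ s ≠ 1 := fun s hs => by
    constructor
    · rintro rfl
      norm_num at hs
    · rintro rfl
      norm_num at hs
  have hser : ∀ s : ℂ, 1 < s.re → E' s = s * (s - 1) *
      ∑' J : (Ideal (𝓞 K))⁰, (starRingEnd ℂ) (cf ψ J) * (nJ J : ℂ) ^ (-s) := by
    intro s hs
    rw [(hLE' s (hne0 s hs).1 (hne0 s hs).2).2]
    congr 1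
    exact (hLsum' s hs).tsum_eq.symm
  -- the identity
  have hid : (fun s : ℂ => E (1 - s) * (g s)⁻¹) =
      fun s : ℂ => ε * (D : ℂ) ^ (s - 1 / 2) * E' s * (g (1 - s))⁻¹ := by
    have hsub : Differentiable ℂ (fun s : ℂ => 1 - s) := (differentiable_const 1).sub differentiable_id
    have d1 : Differentiable ℂ (fun s : ℂ => E (1 - s) * (g s)⁻¹) := (hE.comp hsub).mul g4
    have d2 : Differentiable ℂ (fun s : ℂ => ε * (D : ℂ) ^ (s - 1 / 2) * E' s * (g (1 - s))⁻¹) := by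
      have h1 : Differentiable ℂ (fun s : ℂ => (D : ℂ) ^ (s - 1 / 2)) :=
        (differentiable_id.sub_const _).const_cpow (Or.inl hDc)
      have h2 : Differentiable ℂ (fun s : ℂ => (g (1 - s))⁻¹) := g4.comp hsub
      exact ((h1.const_mul ε).mul hE').mul h2
    refine AnalyticOnNhd.eq_of_eventuallyEq (z₀ := 2) (fun z _ => d1.analyticAt z)
      (fun z _ => d2.analyticAt z) ?_
    have hopen : IsOpen {s : ℂ | 1 < s.re} := isOpen_lt continuous_const Complex.continuous_re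
    filter_upwards [hopen.mem_nhds (show (1 : ℝ) < (2 : ℂ).re by norm_num)] with s hs
    have hs' : 1 < s.re := hs
    have hgs : g s ≠ 0 := (g1 s (by linarith)).2
    rw [hFE1 s hs', hser s hs', ← hD]
    generalize (∑' J : (Ideal (𝓞 K))⁰, (starRingEnd ℂ) (cf ψ J) * (nJ J : ℂ) ^ (-s)) = T
    linear_combination (ε * (s * (s - 1)) * (D : ℂ) ^ (s - 1 / 2) * (g (1 - s))⁻¹ * T) *
      mul_inv_cancel₀ hgs
  have hid' : ∀ s : ℂ, E (1 - s) * (g s)⁻¹ =
      ε * (D : ℂ) ^ (s - 1 / 2) * E' s * (g (1 - s))⁻¹ := fun s => congrFun hid s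
  -- the two formulas agree on the strip
  have hAB : ∀ s : ℂ, 0 < s.re → s.re < 1 → PE n g D E s = ε * PE n g D E' (1 - s) := by
    intro s hs0 hs1
    have hgs : g s ≠ 0 := (g1 s hs0).2
    have hgs' : g (1 - s) ≠ 0 := (g1 (1 - s) (by rw [sub_re, one_re]; linarith)).2
    have h1 := hid' (1 - s)
    rw [sub_sub_cancel] at h1
    have h2 : E s * g s = ε * (D : ℂ) ^ (1 - s - 1 / 2) * E' (1 - s) * g (1 - s) := by
      generalize (D : ℂ) ^ (1 - s - 1 / 2) = w at h1 ⊢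
      field_simp at h1
      linear_combination h1
    have h3 : (D : ℂ) ^ (s / 2) * (D : ℂ) ^ (1 - s - 1 / 2) = (D : ℂ) ^ ((1 - s) / 2) := by
      rw [← Complex.cpow_add _ _ hDc]
      congr 1
      ring
    unfold PE
    have h4 : (1 - s) * (1 - s - 1) = s * (s - 1) := by ring
    rw [h4, ← h3]
    calc (s * (s - 1)) ^ (n - 1) * g s * (D : ℂ) ^ (s / 2) * E s
        = (s * (s - 1)) ^ (n - 1) * (D : ℂ) ^ (s / 2) * (E s * g s) := by ring
      _ = _ := by rw [h2]; ring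
  set Ξ : ℂ → ℂ := fun s => if 0 < s.re then PE n g D E s else ε * PE n g D E' (1 - s) with hΞ
  have hΞ1 : ∀ s : ℂ, 0 < s.re → Ξ s = PE n g D E s := fun s hs => by
    rw [hΞ]
    exact if_pos hs
  have hΞ2 : ∀ s : ℂ, s.re < 1 → Ξ s = ε * PE n g D E' (1 - s) := fun s hs => by
    by_cases h : 0 < s.re
    · rw [hΞ1 s h, hAB s h hs]
    · rw [hΞ]
      exact if_neg h
  have hΞd : Differentiable ℂ Ξ := by
    intro s
    by_cases h : 0 < s.re
    · have h1 : Ξ =ᶠ[𝓝 s] PE n g D E := by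
        filter_upwards [(isOpen_lt continuous_const Complex.continuous_re).mem_nhds
          (show (0 : ℝ) < s.re from h)] with z hz
        exact hΞ1 z hz
      exact (pe_diff n g D hD0 E hE s (g1 s h).1).congr_of_eventuallyEq h1
    · have h0 : s.re < 1 := by linarith
      have h1 : Ξ =ᶠ[𝓝 s] fun z => ε * PE n g D E' (1 - z) := by
        filter_upwards [(isOpen_lt Complex.continuous_re continuous_const).mem_nhds
          (show s.re < (1 : ℝ) from h0)] with z hz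
        exact hΞ2 z hz
      refine DifferentiableAt.congr_of_eventuallyEq ?_ h1
      have h2 : DifferentiableAt ℂ (PE n g D E') (1 - s) :=
        pe_diff n g D hD0 E' hE' (1 - s) (g1 (1 - s) (by rw [sub_re, one_re]; linarith)).1
      have h3 : DifferentiableAt ℂ (fun z : ℂ => 1 - z) s :=
        (differentiableAt_const 1).sub differentiableAt_id
      exact (DifferentiableAt.comp s h2 h3).const_mul ε
  -- the `L`-function
  have hL0 : ∃ L₀ : ℂ → ℂ, DifferentiableOn ℂ L₀ {1}ᶜ ∧ ∀ s : ℂ, s ≠ 0 → s ≠ 1 → L₀ s = L s := by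
    by_cases hm : m = 0
    · have hE0 : E 0 = 0 := by
        have h1 := hid' 1
        have hv : (g (1 - 1))⁻¹ = 0 := by
          rw [sub_self]
          obtain ⟨v⟩ : Nonempty (Pl k) := inferInstance
          exact g5 v (by rw [hm]; rfl)
        rw [hv, mul_zero, sub_self] at h1
        have hg1 : (g 1)⁻¹ ≠ 0 := inv_ne_zero (g1 1 (by norm_num)).2
        exact (mul_eq_zero.1 h1).resolve_right hg1
      refine ⟨fun s => dslope E 0 s / (s - 1), ?_, ?_⟩
      · have h2 : Differentiable ℂ (dslope E 0) := by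
          have := (Complex.differentiableOn_dslope (f := E) (s := univ) (c := 0)
            Filter.univ_mem).2 hE.differentiableOn
          exact differentiableOn_univ.1 this
        intro s hs
        have hs1 : s - 1 ≠ 0 := sub_ne_zero.2 hs
        exact ((h2 s).div (differentiableAt_id.sub_const 1) hs1).differentiableWithinAt
      · intro s h0 h1
        have h3 : dslope E 0 s = s⁻¹ * E s := by
          rw [dslope_of_ne E h0, slope_def_module, hE0, sub_zero, sub_zero, smul_eq_mul]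
        have h4 := (hLE s h0 h1).2
        have hs1 : s - 1 ≠ 0 := sub_ne_zero.2 h1
        change dslope E 0 s / (s - 1) = L s
        rw [h3, h4]
        field_simp
    · exact ⟨L, (hLent hm).differentiableOn, fun s _ _ => rfl⟩
  obtain ⟨L₀, hL₀d, hL₀⟩ := hL0
  refine ⟨Ξ, L₀, ε, hε, hΞd, ⟨hL₀d, ?_⟩, ?_, ?_, ?_⟩
  · intro s hs
    obtain ⟨h0, h1⟩ := hne0 s hs
    rw [hL₀ s h0 h1]
    exact hLsum s hs
  · intro s hs0 hs1
    have h0 : s ≠ 0 := by
      rintro rfl
      norm_num at hs0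
    rw [hΞ1 s hs0, hL₀ s h0 hs1, g2 s]
    unfold PE
    rw [(hLE s h0 hs1).2]
    have e : (s * (s - 1)) ^ n = (s * (s - 1)) ^ (n - 1) * (s * (s - 1)) := by
      rw [← pow_succ]
      congr 1
      omega
    rw [e]
    ring
  · intro s hs
    have h1 : (1 - s).re < 1 := by rw [sub_re, one_re]; linarith
    rw [hΞ2 (1 - s) h1, sub_sub_cancel]
    congr 1
    unfold PE
    rw [hser s hs, g2 s]
    have e : (s * (s - 1)) ^ n = (s * (s - 1)) ^ (n - 1) * (s * (s - 1)) := by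
      rw [← pow_succ]
      congr 1
      omega
    rw [e]
    ring
  · intro b
    set b₂ : ℝ := |b| + 2 with hb₂
    have hb₂1 : 1 ≤ b₂ := by
      have := abs_nonneg b
      linarith
    obtain ⟨Cg, hCg⟩ := g6 b₂
    obtain ⟨CE, AE, hCE⟩ := hEgr b₂
    obtain ⟨CE', AE', hCE'⟩ := hEgr' b₂
    obtain ⟨C₁, hC₁, H₁⟩ := pe_bound n g D hD1 E b₂ Cg CE AE hb₂1 hCg hCE
    obtain ⟨C₂, hC₂, H₂⟩ := pe_bound n g D hD1 E' b₂ Cg CE' AE' hb₂1 hCg hCE'
    refine ⟨C₁ + C₂, |AE| + |AE'| + 1, fun s hs => ?_⟩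
    have hb := (le_abs_self b)
    obtain ⟨hs1, hs2⟩ := abs_le.1 (hs.trans hb)
    by_cases h : 1 / 2 ≤ s.re
    · rw [hΞ1 s (by linarith)]
      refine (H₁ s h (by linarith)).trans ?_
      have e1 : Real.exp ((|AE| + 1) * |s.im|) ≤ Real.exp ((|AE| + |AE'| + 1) * |s.im|) := by
        refine Real.exp_le_exp.2 (mul_le_mul_of_nonneg_right ?_ (abs_nonneg _))
        have := abs_nonneg AE'
        linarith
      calc C₁ * Real.exp ((|AE| + 1) * |s.im|) ≤
            C₁ * Real.exp ((|AE| + |AE'| + 1) * |s.im|) := mul_le_mul_of_nonneg_left e1 hC₁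
        _ ≤ _ := mul_le_mul_of_nonneg_right (by linarith) (Real.exp_pos _).le
    · push Not at h
      rw [hΞ2 s (by linarith), norm_mul]
      have h3 : ‖PE n g D E' (1 - s)‖ ≤ C₂ * Real.exp ((|AE'| + 1) * |(1 - s).im|) := by
        refine H₂ (1 - s) ?_ ?_
        · rw [sub_re, one_re]; linarith
        · rw [sub_re, one_re]; linarith
      have him : |(1 - s).im| = |s.im| := by rw [sub_im, one_im, zero_sub, abs_neg]
      rw [him] at h3
      have e1 : Real.exp ((|AE'| + 1) * |s.im|) ≤ Real.exp ((|AE| + |AE'| + 1) * |s.im|) := by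
        refine Real.exp_le_exp.2 (mul_le_mul_of_nonneg_right ?_ (abs_nonneg _))
        have := abs_nonneg AE
        linarith
      calc ‖ε‖ * ‖PE n g D E' (1 - s)‖ ≤ 1 * ‖PE n g D E' (1 - s)‖ :=
            mul_le_mul_of_nonneg_right hε (norm_nonneg _)
        _ ≤ C₂ * Real.exp ((|AE'| + 1) * |s.im|) := by rw [one_mul]; exact h3
        _ ≤ C₂ * Real.exp ((|AE| + |AE'| + 1) * |s.im|) := mul_le_mul_of_nonneg_left e1 hC₂
        _ ≤ _ := mul_le_mul_of_nonneg_right (by linarith) (Real.exp_pos _).le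

end Pool.Agent.H23.CMC
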