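import Pool.Agent.H23.CM4.Asm
import Pool.Agent.H19.CMC.MOT
import Pool.Agent.H23.CMC.FIN
import Pool.Agent.H23.CMC.PBD
import Pool.Agent.H23.CMC.PRM
import Pool.Agent.H23.CMC.RES
import Pool.Agent.H23.CMC.SM2
import Pool.Agent.H23.CMC.XI
import Pool.Agent.H31.CMC.GLN
import Pool.Agent.H35.CMC.MOS
import Pool.Agent.H37.CMC.FX
import Pool.Agent.H37.CMC.LCN
import Pool.Agent.H37.CMC.PLB
import Pool.Agent.H41.CMC.DVB
import Pool.Agent.H42.CMC.CO1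
import Pool.Agent.H42.CMC.MSM
import Pool.Agent.H51.CMC.CJ
import Pool.Agent.H52.CMC.SPT
import Pool.Agent.H52.CMC.TRB
import Pool.Agent.H54.CMC.GMP
import Pool.Agent.H56.CMC.AFE
import Pool.Agent.H56.CMC.CO2
import Pool.Agent.H64.CMC.FM2
import Pool.Agent.H72.CMC.KSM
import Pool.Agent.H77.CMC.FE
import Pool.Agent.H78.CMC.MUL
import Pool.Agent.H90.CMC.FM1
import Pool.Agent.H90.CMC.FMS
import Pool.Agent.H91.CMC.DCX
import Pool.Agent.H91.CMC.FM3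
import Pool.Agent.H97.CMC.UNI
import Pool.Agent.H99.CMC.HKG
import Pool.Agent.H99.CMC.KRB
import Pool.Agent.H99.CMC.NTV

/-!
# The fourth moment of the complete family of CM Hilbert modular forms: assembly of part G
-/

set_option autoImplicit false

namespace Pool.Agent.H23.CMC

open Pool.Agent.H23.CM4 (a_DSM a_SPT a_ABS a_SPJ a_JDM a_SQD a_SFS a_DVB)

theorem b_DCX : T_DCX := Pool.Agent.H91.CMC.pf_DCX

theorem b_PLB : T_PLB := Pool.Agent.H37.CMC.pf_PLB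

theorem b_HKG : T_HKG := Pool.Agent.H99.CMC.pf_HKG b_PLB b_DCX

theorem b_PRM : T_PRM := pf_PRM pf_RES b_DCX

theorem b_NTV : T_NTV := Pool.Agent.H99.CMC.pf_NTV b_PLB b_DCX

theorem b_CJ : T_CJ := Pool.Agent.H51.CMC.pf_CJ

theorem b_GMP : T_GMP := Pool.Agent.H54.CMC.pf_GMP

theorem b_FE : T_FEc := Pool.Agent.H77.CMC.pf_FE b_HKG b_PRM b_NTV b_DCX b_PLB b_GMP

theorem b_XI : T_XIc := pf_XI b_FE b_GMP b_CJ b_DCX

theorem b_UNI : T_UNI := Pool.Agent.H97.CMC.pf_UNI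

theorem b_KSM : T_KSMc := Pool.Agent.H72.CMC.pf_KSM a_DSM

theorem b_AFE : T_AFEc := Pool.Agent.H56.CMC.pf_AFE b_XI b_UNI b_KSM b_DCX b_GMP

theorem b_GLN : T_GLNc := Pool.Agent.H31.CMC.pf_GLN

theorem b_SPT : T_SPTc := Pool.Agent.H52.CMC.pf_SPT a_SPT a_SPJ a_DSM

theorem b_LCN : T_LCN := Pool.Agent.H37.CMC.pf_LCN a_JDM

theorem b_SPR : T_SPRc := Pool.Agent.H52.CMC.pf_SPR b_LCN a_JDM

theorem b_DVB : T_DVBc := Pool.Agent.H41.CMC.pf_DVB b_LCN a_DVB a_JDM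

theorem b_MUL : T_MULc := Pool.Agent.H78.CMC.pf_MUL b_LCN a_JDM

theorem b_FX : T_FXc := Pool.Agent.H37.CMC.pf_FX b_DCX

theorem b_MSM : T_MSM := Pool.Agent.H42.CMC.pf_MSM

/-- part G: from the twisted second moment and the bounds for the kernel to the theorem -/
theorem partG (hTMF : Pool.Agent.H65.CMC.T_TMFm) (hKCB : T_KCBn) (hKCD : T_KCDn) :
    Pool.Agent.H65.CMC.T_FINc := by
  have c_KRB : T_KRBc := Pool.Agent.H99.CMC.pf_KRB hKCB hKCD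
  have c_PBD : T_PBDc := pf_PBD b_AFE c_KRB b_GLN b_SPT b_DCX b_CJ a_ABS a_DSM
  have c_TRB : T_TRBc := Pool.Agent.H52.CMC.pf_TRB c_PBD b_SPT b_DCX
  have c_MOS : T_MOSc := Pool.Agent.H35.CMC.pf_MOS hTMF b_MUL b_SPR b_DVB b_FX a_JDM a_SQD a_SFS
  have c_SM2 : T_SM2c := pf_SM2 hTMF b_MUL b_FX a_JDM
  have c_MOT : T_MOTc := Pool.Agent.H19.CMC.pf_MOT c_MOS c_SM2 b_SPT b_FX b_DCX
  have c_FMS : T_FMSc := Pool.Agent.H90.CMC.pf_FMS c_MOT c_PBD b_SPT b_FX b_DCX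
  have c_FM1 : T_FM1c := Pool.Agent.H90.CMC.pf_FM1 c_FMS c_TRB b_UNI b_FX b_DCX
  have c_FM3 : T_FM3c := Pool.Agent.H91.CMC.pf_FM3 c_FM1 b_MSM b_FX b_DCX
  have c_FM2 : T_FM2c := Pool.Agent.H64.CMC.pf_FM2 c_FM3 b_FX b_DCX
  have c_CO1 : T_CO1c := Pool.Agent.H42.CMC.pf_CO1 c_FM3 b_FX
  have c_CO2 : T_CO2c := Pool.Agent.H56.CMC.pf_CO2 c_CO1 b_FX
  exact pf_FIN b_XI c_FM2 c_CO1 c_CO2 b_FX

end Pool.Agent.H23.CMC
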