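import Pool.Agent.H65.CMC.Defs
import Pool.Agent.H23.CM4.Targets
import Pool.Agent.H23.LC.Tools

/-!
# The fourth moment of the complete family of CM Hilbert modular forms over a totally real field,
part D: from the twisted second moment to the theorem
-/

set_option autoImplicit false

open NumberField MeasureTheory Set Filter Complex
open scoped nonZeroDivisors Real

namespace Pool.Agent.H23.CMC

open Pool.Agent.H65.CM4 (Sq nm dg Pl rv)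
open Pool.Agent.H65.CMC (Emb ty PrTo IsHk ms IsLk gg GM cG Km Idx cdc Fmc lc)
open Pool.Agent.H23.CM4 (nJ Jd Nr wB)
open Pool.Agent.H23.LC (HG ag)

/-! ### Definitions -/

/-- `ψ` is a primitive Hecke character of the CM quadratic extension `K` of `k` -/
structure Chr {k : Type} [Field k] [NumberField k] [IsTotallyReal k] {K : Type} [Field K]
    [NumberField K] [Algebra k K] (Φ : Pl k → K →+* ℂ) (f : Ideal (𝓞 k)) (m : Pl k → ℤ)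
    (ψ : Ideal (𝓞 K) → ℂ) : Prop where
  rk : Module.finrank k K = 2
  cx : IsTotallyComplex K
  emb : Emb k Φ
  hk : IsHk Φ f m ψ

/-- the size of the conductor -/
noncomputable def dC {k : Type} [Field k] [NumberField k] (K : Type) [Field K] [NumberField K]
    (f : Ideal (𝓞 k)) : ℝ :=
  |(discr K : ℝ)| * nm f ^ 2

/-- the size of the parameters -/
noncomputable def Tc {k : Type} [Field k] [NumberField k] (m : Pl k → ℤ) (s : ℂ) : ℝ :=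
  1 + |s.im| + ms m

/-- the conductor as an ideal of `K` -/
noncomputable def fK {k : Type} [Field k] [NumberField k] (K : Type) [Field K] [NumberField K]
    [Algebra k K] (f : Ideal (𝓞 k)) : Ideal (𝓞 K) :=
  f.map (algebraMap (𝓞 k) (𝓞 K))

/-- the coefficients as a function of the nonzero ideals -/
def cf {K : Type} [Field K] [NumberField K] (ψ : Ideal (𝓞 K) → ℂ) (J : (Ideal (𝓞 K))⁰) : ℂ :=
  ψ (J : Ideal (𝓞 K))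

/-- the partial sums -/
noncomputable def Sc {K : Type} [Field K] [NumberField K] (c : (Ideal (𝓞 K))⁰ → ℂ) (x : ℝ) : ℂ :=
  ∑' J : {J : (Ideal (𝓞 K))⁰ // nJ J ≤ x}, c J

/-- the Gamma factor without the factors `s (s - 1)` -/
noncomputable def gM {k : Type} [Field k] [NumberField k] (m : Pl k → ℤ) (s : ℂ) : ℂ :=
  ∏ v : Pl k, Complex.Gamma (s + ((|m v| : ℤ) : ℂ)) * (2 * (π : ℂ)) ^ (-s)

/-! ### Fields and characters -/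

/-- (DCX) degrees, discriminants, conductors. -/
def T_DCX : Prop :=
  ∀ (k : Type) [Field k] [NumberField k] (K : Type) [Field K] [NumberField K] [Algebra k K],
    Module.finrank k K = 2 → 0 < dg k ∧ Module.finrank ℚ K = 2 * dg k ∧
      (∀ f : Ideal (𝓞 k), f ≠ ⊥ → 1 ≤ dC K f ∧ |(discr K : ℝ)| ≤ dC K f ∧ 1 ≤ nm f ∧
        fK K f ≠ ⊥ ∧ (Ideal.absNorm (fK K f) : ℝ) = nm f ^ 2 ∧
        dC K f = |(discr K : ℝ)| * (Ideal.absNorm (fK K f) : ℝ)) ∧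
      ∀ (m : Pl k → ℤ) (s : ℂ), 1 ≤ Tc m s ∧ 0 < cG m s.im ∧ cG m (1 - s).im = cG m s.im ∧
        Tc m (1 - s) = Tc m s ∧ 0 ≤ ms m

/-- (PLB) the places of `K` and of `k`. -/
def T_PLB : Prop :=
  ∀ (k : Type) [Field k] [NumberField k] [IsTotallyReal k] (K : Type) [Field K] [NumberField K]
    [Algebra k K], Module.finrank k K = 2 → IsTotallyComplex K →
    Function.Bijective (fun w : InfinitePlace K => w.comap (algebraMap k K)) ∧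
    ∀ Φ : Pl k → K →+* ℂ, Emb k Φ → ∀ w : InfinitePlace K, w.IsComplex ∧
      (w.embedding = Φ (w.comap (algebraMap k K)) ∨
        ∀ a : K, w.embedding a = (starRingEnd ℂ) (Φ (w.comap (algebraMap k K)) a)) ∧
      ∀ a : K, w a = ‖Φ (w.comap (algebraMap k K)) a‖

/-- (HKG) the character as a character of the library. -/
def T_HKG : Prop :=
  ∀ (k : Type) [Field k] [NumberField k] [IsTotallyReal k] (K : Type) [Field K] [NumberField K]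
    [Algebra k K] (Φ : Pl k → K →+* ℂ) (f : Ideal (𝓞 k)) (m : Pl k → ℤ) (ψ : Ideal (𝓞 K) → ℂ),
    Chr Φ f m ψ → ∃ χ : HG K (fK K f), χ.ψ = ψ ∧ χ.ν = 0 ∧
      (∀ a : K, a ≠ 0 → ag χ.k a = ty Φ m a) ∧
      ∀ w : InfinitePlace K, |χ.k w| = 2 * |m (w.comap (algebraMap k K))|

/-- (RES) residues. -/
def T_RES : Prop :=
  ∀ (k : Type) [Field k] [NumberField k] (K : Type) [Field K] [NumberField K] [Algebra k K],
    Module.finrank k K = 2 → ∀ (P : Ideal (𝓞 k)) (Q R : Ideal (𝓞 K)), P.IsPrime → P ≠ ⊥ →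
    Q.IsPrime → Q * R = P.map (algebraMap (𝓞 k) (𝓞 K)) →
    (R = ⊤ ∨ ∀ n : 𝓞 k, algebraMap (𝓞 k) (𝓞 K) n ∈ R → n ∈ P) ∧
    ∀ w : 𝓞 K, ∃ n : 𝓞 k, w - algebraMap (𝓞 k) (𝓞 K) n ∈ R

/-- (PRM) the character is primitive at the primes of `K`. -/
def T_PRM : Prop :=
  ∀ (k : Type) [Field k] [NumberField k] [IsTotallyReal k] (K : Type) [Field K] [NumberField K]
    [Algebra k K] (Φ : Pl k → K →+* ℂ) (f : Ideal (𝓞 k)) (m : Pl k → ℤ) (ψ : Ideal (𝓞 K) → ℂ),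
    Chr Φ f m ψ → ∀ Q : Ideal (𝓞 K), Q.IsPrime → fK K f ≤ Q → ∃ a : 𝓞 K, a ≠ 0 ∧
      Ideal.span {a} ⊔ fK K f = ⊤ ∧ (∀ x ∈ Q, (a - 1) * x ∈ fK K f) ∧
      ψ (Ideal.span {a}) ≠ ty Φ m (a : K)

/-- (NTV) characters of nonzero weight are nontrivial. -/
def T_NTV : Prop :=
  ∀ (k : Type) [Field k] [NumberField k] [IsTotallyReal k] (K : Type) [Field K] [NumberField K]
    [Algebra k K] (Φ : Pl k → K →+* ℂ) (f : Ideal (𝓞 k)) (m : Pl k → ℤ) (ψ : Ideal (𝓞 K) → ℂ),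
    Chr Φ f m ψ → m ≠ 0 → ∃ I : Ideal (𝓞 K), ψ I ≠ 0 ∧ ψ I ≠ 1

/-- (CJ) the conjugate character. -/
def T_CJ : Prop :=
  ∀ (k : Type) [Field k] [NumberField k] [IsTotallyReal k] (K : Type) [Field K] [NumberField K]
    [Algebra k K] (Φ : Pl k → K →+* ℂ) (f : Ideal (𝓞 k)) (m : Pl k → ℤ) (ψ : Ideal (𝓞 K) → ℂ),
    Chr Φ f m ψ → Chr Φ f (-m) (fun I => (starRingEnd ℂ) (ψ I)) ∧ (∀ I, ‖ψ I‖ ≤ 1) ∧
      ms (-m) = ms m ∧ (∀ s, GM (-m) s = GM m s) ∧ ∀ s, gM (-m) s = gM m s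

/-! ### The functional equation -/

/-- (GMP) the Gamma factor. -/
def T_GMP : Prop :=
  ∀ (k : Type) [Field k] [NumberField k] [IsTotallyReal k] (m : Pl k → ℤ),
    (∀ s : ℂ, 0 < s.re → DifferentiableAt ℂ (gM m) s ∧ gM m s ≠ 0) ∧
    (∀ s : ℂ, GM m s = (s * (s - 1)) ^ dg k * gM m s) ∧
    (∀ s : ℂ, 0 < s.re → DifferentiableAt ℂ (GM m) s ∧ (s ≠ 1 → GM m s ≠ 0)) ∧
    Differentiable ℂ (fun s => (gM m s)⁻¹) ∧ (∀ v : Pl k, m v = 0 → (gM m 0)⁻¹ = 0) ∧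
    (∀ b : ℝ, ∃ C : ℝ, ∀ s : ℂ, 1 / 4 ≤ s.re → s.re ≤ b → ‖gM m s‖ ≤ C) ∧
    ∀ b : ℝ, ∃ C : ℝ, ∀ s : ℂ, 1 / 4 ≤ s.re → s.re ≤ b → ‖GM m s‖ ≤ C * (1 + ‖s‖) ^ (2 * dg k)

/-- (FEc) the functional equation from the library. -/
def T_FEc : Prop :=
  ∀ (k : Type) [Field k] [NumberField k] [IsTotallyReal k] (K : Type) [Field K] [NumberField K]
    [Algebra k K] (Φ : Pl k → K →+* ℂ) (f : Ideal (𝓞 k)) (m : Pl k → ℤ) (ψ : Ideal (𝓞 K) → ℂ),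
    Chr Φ f m ψ → ∃ (L E : ℂ → ℂ) (ε : ℂ), ‖ε‖ ≤ 1 ∧ Differentiable ℂ E ∧
      (∀ s : ℂ, s ≠ 0 → s ≠ 1 → DifferentiableAt ℂ L s ∧ E s = s * (s - 1) * L s) ∧
      (m ≠ 0 → Differentiable ℂ L) ∧
      (∀ s : ℂ, 1 < s.re → HasSum (fun J : (Ideal (𝓞 K))⁰ => cf ψ J * (nJ J : ℂ) ^ (-s)) (L s)) ∧
      (∀ b : ℝ, ∃ C A : ℝ, ∀ s : ℂ, |s.re| ≤ b → ‖E s‖ ≤ C * Real.exp (A * |s.im|)) ∧
      ∀ s : ℂ, 1 < s.re → E (1 - s) = ε * (s * (s - 1)) * (dC K f : ℂ) ^ (s - 1 / 2) * gM m s *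
        (gM m (1 - s))⁻¹ *
          ∑' J : (Ideal (𝓞 K))⁰, (starRingEnd ℂ) (cf ψ J) * (nJ J : ℂ) ^ (-s)

/-- (XIc) the completed `L`-function. -/
def T_XIc : Prop :=
  ∀ (k : Type) [Field k] [NumberField k] [IsTotallyReal k] (K : Type) [Field K] [NumberField K]
    [Algebra k K] (Φ : Pl k → K →+* ℂ) (f : Ideal (𝓞 k)) (m : Pl k → ℤ) (ψ : Ideal (𝓞 K) → ℂ),
    Chr Φ f m ψ → ∃ (Ξ L : ℂ → ℂ) (ε : ℂ), ‖ε‖ ≤ 1 ∧ Differentiable ℂ Ξ ∧ IsLk K ψ L ∧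
      (∀ s : ℂ, 0 < s.re → s ≠ 1 → Ξ s = GM m s * (dC K f : ℂ) ^ (s / 2) * L s) ∧
      (∀ s : ℂ, 1 < s.re → Ξ (1 - s) = ε * (GM m s * (dC K f : ℂ) ^ (s / 2) *
        ∑' J : (Ideal (𝓞 K))⁰, (starRingEnd ℂ) (cf ψ J) * (nJ J : ℂ) ^ (-s))) ∧
      ∀ b : ℝ, ∃ C A : ℝ, ∀ s : ℂ, |s.re| ≤ b → ‖Ξ s‖ ≤ C * Real.exp (A * |s.im|)

/-- (UNI) uniqueness of the `L`-function. -/
def T_UNI : Prop :=
  ∀ (K : Type) [Field K] [NumberField K] (ψ : Ideal (𝓞 K) → ℂ) (L L' : ℂ → ℂ),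
    IsLk K ψ L → IsLk K ψ L' → ∀ s : ℂ, s ≠ 1 → L s = L' s

/-- (KSMc) the smoothed sums. -/
def T_KSMc : Prop :=
  ∀ (k : Type) [Field k] [NumberField k] (K : Type) [Field K] [NumberField K] (m : Pl k → ℤ)
    (D : ℝ) (c : (Ideal (𝓞 K))⁰ → ℂ) (s : ℂ),
    1 ≤ D → (∀ J, ‖c J‖ ≤ 1) → 0 < s.re → s.re < 1 →
    HasSum (fun J : (Ideal (𝓞 K))⁰ => c J * Km m s ((nJ J / Real.sqrt D : ℝ) : ℂ))
      (((1 / (2 * π) : ℝ) : ℂ) * ∫ t : ℝ, (GM m (2 + t * I) *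
        (D : ℂ) ^ ((2 + t * I) / 2) * ∑' J : (Ideal (𝓞 K))⁰, c J * (nJ J : ℂ) ^ (-(2 + t * I))) *
        (cexp ((2 + t * I - s) ^ 2) / (2 + t * I - s)))

/-- (AFEc) the approximate functional equation. -/
def T_AFEc : Prop :=
  ∀ (k : Type) [Field k] [NumberField k] [IsTotallyReal k] (K : Type) [Field K] [NumberField K]
    [Algebra k K] (Φ : Pl k → K →+* ℂ) (f : Ideal (𝓞 k)) (m : Pl k → ℤ) (ψ : Ideal (𝓞 K) → ℂ)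
    (L : ℂ → ℂ), Chr Φ f m ψ → IsLk K ψ L → ∃ ε : ℂ, ‖ε‖ ≤ 1 ∧
    ∀ s : ℂ, 0 < s.re → s.re < 1 → ∃ a a' : ℂ,
      HasSum (fun J : (Ideal (𝓞 K))⁰ => cf ψ J *
        Km m s ((nJ J / Real.sqrt (dC K f) : ℝ) : ℂ)) a ∧
      HasSum (fun J : (Ideal (𝓞 K))⁰ => (starRingEnd ℂ) (cf ψ J) *
        Km m (1 - s) ((nJ J / Real.sqrt (dC K f) : ℝ) : ℂ)) a' ∧
      GM m s * (dC K f : ℂ) ^ (s / 2) * L s = a + ε * a'

/-! ### Bounds for one `L`-function -/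

/-- (KCBn) the bound of the kernel, uniform in the weight (part E). -/
def T_KCBn : Prop :=
  ∀ (k : Type) [Field k] [NumberField k] [IsTotallyReal k] (B : ℕ) (κ : ℝ), 0 < κ → κ ≤ 1 / 8 →
    ∃ (C : ℝ) (j : ℕ), 0 ≤ C ∧ ∀ (m : Pl k → ℤ) (s r : ℂ),
    |s.re - 1 / 2| ≤ κ → 0 < r.re → 10 * Tc m s * |r.im| ≤ r.re →
    ‖Km m s r‖ ≤ C * (Tc m s ^ j * cG m s.im) * r.re ^ (-(1 / 2 + 2 * κ)) *
      (1 + r.re) ^ (-(B : ℝ))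

/-- (KCDn) the kernel is holomorphic (part E). -/
def T_KCDn : Prop :=
  ∀ (k : Type) [Field k] [NumberField k] [IsTotallyReal k] (m : Pl k → ℤ) (s r : ℂ),
    |s.re - 1 / 2| ≤ 1 / 8 → 0 < r.re → 10 * Tc m s * |r.im| ≤ r.re →
    DifferentiableAt ℂ (fun r => Km m s r) r

/-- (KRBc) bounds for the kernel on the positive real numbers. -/
def T_KRBc : Prop :=
  ∀ (k : Type) [Field k] [NumberField k] [IsTotallyReal k] (B : ℕ) (κ : ℝ), 0 < κ → κ ≤ 1 / 8 →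
    ∃ (C : ℝ) (j : ℕ), 0 < C ∧ ∀ (m : Pl k → ℤ) (s : ℂ), |s.re - 1 / 2| ≤ κ →
      ContinuousOn (deriv (fun r : ℝ => Km m s (r : ℂ))) (Ioi 0) ∧
      ∀ r : ℝ, 0 < r → DifferentiableAt ℝ (fun r : ℝ => Km m s (r : ℂ)) r ∧
        ‖Km m s (r : ℂ)‖ ≤ C * Tc m s ^ j * cG m s.im *
          r ^ (-(1 / 2 + 2 * κ)) * ((1 + r) ^ B)⁻¹ ∧
        ‖deriv (fun r : ℝ => Km m s (r : ℂ)) r‖ ≤ C * Tc m s ^ j * cG m s.im *
          r ^ (-(3 / 2 + 2 * κ)) * ((1 + r) ^ B)⁻¹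

/-- (GLNc) the lower bound for the Gamma factor. -/
def T_GLNc : Prop :=
  ∀ (k : Type) [Field k] [NumberField k], ∃ (C : ℝ) (j : ℕ), 0 < C ∧
    ∀ (m : Pl k → ℤ) (s : ℂ), |s.re - 1 / 2| ≤ 1 / 8 → cG m s.im ≤ C * Tc m s ^ j * ‖GM m s‖

/-- (SPTc) the trivial bound for the partial sums. -/
def T_SPTc : Prop :=
  ∀ m : ℕ, ∃ C : ℝ, 0 < C ∧ ∀ (K : Type) [Field K] [NumberField K], Module.finrank ℚ K = m →
    ∀ c : (Ideal (𝓞 K))⁰ → ℂ, (∀ J, ‖c J‖ ≤ 1) → Measurable (Sc c) ∧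
      (∀ x : ℝ, Sc (fun J => (starRingEnd ℂ) (c J)) x = (starRingEnd ℂ) (Sc c x)) ∧
      ∀ x : ℝ, 1 ≤ x → ‖Sc c x‖ ≤ C * x ^ 2

/-- (PBDc) the bound for the `L`-function by the partial sums of the coefficients. -/
def T_PBDc : Prop :=
  ∀ (k : Type) [Field k] [NumberField k] [IsTotallyReal k] (B : ℕ) (κ : ℝ), 0 < κ → κ ≤ 1 / 8 →
    ∃ (C : ℝ) (j : ℕ), 0 < C ∧
    ∀ (K : Type) [Field K] [NumberField K] [Algebra k K] (Φ : Pl k → K →+* ℂ) (f : Ideal (𝓞 k))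
      (m : Pl k → ℤ) (ψ : Ideal (𝓞 K) → ℂ) (L : ℂ → ℂ), Chr Φ f m ψ → IsLk K ψ L →
    ∀ s : ℂ, |s.re - 1 / 2| ≤ κ →
    IntegrableOn (fun x : ℝ => ‖Sc (cf ψ) x‖ * x ^ (-(3 / 2) : ℝ) * wB (B + 4) (dC K f) x)
      (Ioi 1) ∧
    ‖L s‖ ≤ C * Tc m s ^ j * dC K f ^ (2 * κ) *
      ∫ x in Ioi (1 : ℝ), ‖Sc (cf ψ) x‖ * x ^ (-(3 / 2) : ℝ) * wB (B + 4) (dC K f) x

/-- (TRBc) the trivial bound for the `L`-function. -/
def T_TRBc : Prop :=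
  ∀ (k : Type) [Field k] [NumberField k] [IsTotallyReal k], ∃ (C : ℝ) (j : ℕ), 0 < C ∧
    ∀ (K : Type) [Field K] [NumberField K] [Algebra k K] (Φ : Pl k → K →+* ℂ) (f : Ideal (𝓞 k))
      (m : Pl k → ℤ) (ψ : Ideal (𝓞 K) → ℂ) (L : ℂ → ℂ), Chr Φ f m ψ → IsLk K ψ L →
    ∀ s : ℂ, |s.re - 1 / 2| ≤ 1 / 8 → ‖L s‖ ≤ C * Tc m s ^ j * dC K f ^ 2

/-! ### The coefficients -/

/-- (LCN) the coefficients are finite sums. -/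
def T_LCN : Prop :=
  ∀ (k : Type) [Field k] [NumberField k] (K : Type) [Field K] [NumberField K] [Algebra k K]
    (ψ : Ideal (𝓞 K) → ℂ) (I : Ideal (𝓞 k)), lc k ψ I = ∑ J ∈ Nr k K I, cf ψ J

/-- (SPRc) the partial sums over the ideals of `k`. -/
def T_SPRc : Prop :=
  ∀ (k : Type) [Field k] [NumberField k] (K : Type) [Field K] [NumberField K] [Algebra k K]
    (ψ : Ideal (𝓞 K) → ℂ) (x : ℝ), Sc (cf ψ) x = ∑ I ∈ Jd k x, lc k ψ I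

/-- (DVBc) the coefficients are small. -/
def T_DVBc : Prop :=
  ∀ (k : Type) [Field k] [NumberField k] (ε : ℝ), 0 < ε → ∃ C : ℝ, 0 < C ∧
    ∀ (K : Type) [Field K] [NumberField K] [Algebra k K], Module.finrank k K = 2 →
    IsTotallyComplex K → ∀ ψ : Ideal (𝓞 K) → ℂ, (∀ J, ‖ψ J‖ ≤ 1) →
    ∀ I : Ideal (𝓞 k), I ≠ ⊥ → ‖lc k ψ I‖ ≤ C * nm I ^ ε

/-- (MULc) the coefficients are multiplicative. -/
def T_MULc : Prop :=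
  ∀ (k : Type) [Field k] [NumberField k] (K : Type) [Field K] [NumberField K] [Algebra k K]
    (ψ : Ideal (𝓞 K) → ℂ), ψ ⊤ = 1 → (∀ J J', ψ (J * J') = ψ J * ψ J') →
    lc k ψ (⊤ : Ideal (𝓞 k)) = 1 ∧ ∀ I I' : Ideal (𝓞 k), I ≠ ⊥ → I' ≠ ⊥ →
      I ⊔ I' = ⊤ → lc k ψ (I * I') = lc k ψ I * lc k ψ I'

/-! ### The fourth moment, fixed weight -/

/-- (FXc) restricting a family to a subset, and its members. -/
def T_FXc : Prop :=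
  ∀ (k : Type) [Field k] [NumberField k] [IsTotallyReal k] (ι : Type) (K : ι → Type)
    [∀ i, Field (K i)] [∀ i, NumberField (K i)] [∀ i, Algebra k (K i)]
    (Φ : ∀ i, Pl k → K i →+* ℂ) (S : Finset (Idx K)) (f : Idx K → Ideal (𝓞 k))
    (m : Idx K → Pl k → ℤ) (F : Idx K → ℂ → ℂ) (a b : ℝ), Fmc k K Φ S f m F a b →
    (∀ x ∈ S, Chr (Φ x.1) (f x) (m x) x.2 ∧ f x ≠ ⊥ ∧ cdc k f x = dC (K x.1) (f x) ∧
      1 ≤ cdc k f x ∧ cdc k f x ≤ b ∧ a ≤ cdc k f x ∧ ∀ I, ‖x.2 I‖ ≤ 1) ∧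
    ∀ (S' : Finset (Idx K)) (a' b' : ℝ) (m' : Idx K → Pl k → ℤ), S' ⊆ S →
      (∀ x ∈ S', m' x = m x ∧ a' ≤ cdc k f x ∧ cdc k f x ≤ b') → Fmc k K Φ S' f m' F a' b'

/-- (MOSc) the second moment with partial sums of the coefficients. -/
def T_MOSc : Prop :=
  ∀ (k : Type) [Field k] [NumberField k] [IsTotallyReal k] (ε : ℝ), 0 < ε →
    ∃ κ : ℝ, 0 < κ ∧ κ ≤ 1 / 8 ∧ ∃ δ : ℝ, 0 < δ ∧ δ ≤ 1 ∧ ∃ (C : ℝ) (j : ℕ), 0 < C ∧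
    ∀ (s : ℂ) (X x : ℝ) (ι : Type) (K : ι → Type) [∀ i, Field (K i)]
      [∀ i, NumberField (K i)] [∀ i, Algebra k (K i)] (Φ : ∀ i, Pl k → K i →+* ℂ)
      (S : Finset (Idx K)) (f : Idx K → Ideal (𝓞 k)) (m : Pl k → ℤ) (F : Idx K → ℂ → ℂ),
      |s.re - 1 / 2| ≤ κ → 1 ≤ X → 1 ≤ x → x ≤ X ^ ((1 + δ) / 2) →
      Fmc k K Φ S f (fun _ => m) F (X / 4) X →
      ∑ p ∈ S, ‖Sc (cf p.2) x‖ ^ 2 * ‖F p s‖ ^ 2 ≤
        C * Tc m s ^ j * X ^ (3 / 2 + ε) * x ^ (1 + ε)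

/-- (SM2c) the second moment. -/
def T_SM2c : Prop :=
  ∀ (k : Type) [Field k] [NumberField k] [IsTotallyReal k] (ε : ℝ), 0 < ε →
    ∃ κ : ℝ, 0 < κ ∧ κ ≤ 1 / 8 ∧ ∃ (C : ℝ) (j : ℕ), 0 < C ∧
    ∀ (s : ℂ) (X : ℝ) (ι : Type) (K : ι → Type) [∀ i, Field (K i)]
      [∀ i, NumberField (K i)] [∀ i, Algebra k (K i)] (Φ : ∀ i, Pl k → K i →+* ℂ)
      (S : Finset (Idx K)) (f : Idx K → Ideal (𝓞 k)) (m : Pl k → ℤ) (F : Idx K → ℂ → ℂ),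
      |s.re - 1 / 2| ≤ κ → 1 ≤ X → Fmc k K Φ S f (fun _ => m) F (X / 4) X →
      ∑ p ∈ S, ‖F p s‖ ^ 2 ≤ C * Tc m s ^ j * X ^ (3 / 2 + ε)

/-- (MOTc) the second moment with partial sums of any length. -/
def T_MOTc : Prop :=
  ∀ (k : Type) [Field k] [NumberField k] [IsTotallyReal k] (ε : ℝ), 0 < ε →
    ∃ κ : ℝ, 0 < κ ∧ κ ≤ 1 / 8 ∧ ∃ (B : ℕ) (C : ℝ) (j : ℕ), 0 < C ∧
    ∀ (s : ℂ) (X x : ℝ) (ι : Type) (K : ι → Type) [∀ i, Field (K i)]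
      [∀ i, NumberField (K i)] [∀ i, Algebra k (K i)] (Φ : ∀ i, Pl k → K i →+* ℂ)
      (S : Finset (Idx K)) (f : Idx K → Ideal (𝓞 k)) (m : Pl k → ℤ) (F : Idx K → ℂ → ℂ),
      |s.re - 1 / 2| ≤ κ → 1 ≤ X → 1 ≤ x → Fmc k K Φ S f (fun _ => m) F (X / 4) X →
      (∑ p ∈ S, ‖Sc (cf p.2) x‖ ^ 2 * ‖F p s‖ ^ 2) * wB B X x ≤
        C * Tc m s ^ j * X ^ (3 / 2 + ε) * x ^ (1 + ε)

/-- (FMSc) the fourth moment at a point near the critical line. -/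
def T_FMSc : Prop :=
  ∀ (k : Type) [Field k] [NumberField k] [IsTotallyReal k] (ε : ℝ), 0 < ε →
    ∃ κ : ℝ, 0 < κ ∧ κ ≤ 1 / 8 ∧ ∃ (C : ℝ) (j : ℕ), 0 < C ∧
    ∀ (s : ℂ) (X : ℝ) (ι : Type) (K : ι → Type) [∀ i, Field (K i)]
      [∀ i, NumberField (K i)] [∀ i, Algebra k (K i)] (Φ : ∀ i, Pl k → K i →+* ℂ)
      (S : Finset (Idx K)) (f : Idx K → Ideal (𝓞 k)) (m : Pl k → ℤ) (F : Idx K → ℂ → ℂ),
      |s.re - 1 / 2| ≤ κ → 1 ≤ X → Fmc k K Φ S f (fun _ => m) F (X / 4) X →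
      ∑ p ∈ S, ‖F p s‖ ^ 4 ≤ C * Tc m s ^ j * X ^ (3 / 2 + ε)

/-- (FM1c) the fourth moment, fixed weight, conductors in `[X / 4, X]`. -/
def T_FM1c : Prop :=
  ∀ (k : Type) [Field k] [NumberField k] [IsTotallyReal k] (ε : ℝ), 0 < ε →
    ∃ (C : ℝ) (A : ℕ), 0 < C ∧
    ∀ (X : ℝ) (ι : Type) (K : ι → Type) [∀ i, Field (K i)]
      [∀ i, NumberField (K i)] [∀ i, Algebra k (K i)] (Φ : ∀ i, Pl k → K i →+* ℂ)
      (S : Finset (Idx K)) (f : Idx K → Ideal (𝓞 k)) (m : Pl k → ℤ) (F : Idx K → ℂ → ℂ)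
      (t : Idx K → ℝ), 1 ≤ X → Fmc k K Φ S f (fun _ => m) F (X / 4) X →
      ∑ p ∈ S, (‖F p (1 / 2 + t p * I)‖ / (1 + |t p| + ms m) ^ A) ^ 4 ≤ C * X ^ (3 / 2 + ε)

/-! ### All weights -/

/-- (MSM) the sum over the weights. -/
def T_MSM : Prop :=
  ∀ (k : Type) [Field k] [NumberField k] [IsTotallyReal k], ∃ C : ℝ, 0 < C ∧
    ∀ M : Finset (Pl k → ℤ),
    ∑ m ∈ M, ((1 + ms m) ^ (2 * dg k))⁻¹ ≤ C

/-- (FM3c) the fourth moment, conductors in `[X / 4, X]`. -/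
def T_FM3c : Prop :=
  ∀ (k : Type) [Field k] [NumberField k] [IsTotallyReal k] (ε : ℝ), 0 < ε →
    ∃ (C : ℝ) (A : ℕ), 0 < C ∧
    ∀ (X : ℝ) (ι : Type) (K : ι → Type) [∀ i, Field (K i)]
      [∀ i, NumberField (K i)] [∀ i, Algebra k (K i)] (Φ : ∀ i, Pl k → K i →+* ℂ)
      (S : Finset (Idx K)) (f : Idx K → Ideal (𝓞 k)) (m : Idx K → Pl k → ℤ) (F : Idx K → ℂ → ℂ)
      (t : Idx K → ℝ), 1 ≤ X → Fmc k K Φ S f m F (X / 4) X →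
      ∑ p ∈ S, (‖F p (1 / 2 + t p * I)‖ / (1 + |t p| + ms (m p)) ^ A) ^ 4 ≤ C * X ^ (3 / 2 + ε)

/-- (FM2c) the fourth moment, all conductors up to `X`. -/
def T_FM2c : Prop :=
  ∀ (k : Type) [Field k] [NumberField k] [IsTotallyReal k] (ε : ℝ), 0 < ε →
    ∃ (C : ℝ) (A : ℕ), 0 < C ∧
    ∀ (X : ℝ) (ι : Type) (K : ι → Type) [∀ i, Field (K i)]
      [∀ i, NumberField (K i)] [∀ i, Algebra k (K i)] (Φ : ∀ i, Pl k → K i →+* ℂ)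
      (S : Finset (Idx K)) (f : Idx K → Ideal (𝓞 k)) (m : Idx K → Pl k → ℤ) (F : Idx K → ℂ → ℂ)
      (t : Idx K → ℝ), 1 ≤ X → Fmc k K Φ S f m F 0 X →
      ∑ p ∈ S, (‖F p (1 / 2 + t p * I)‖ / (1 + |t p| + ms (m p)) ^ A) ^ 4 ≤ C * X ^ (3 / 2 + ε)

/-- (CO1c) almost all characters. -/
def T_CO1c : Prop :=
  ∀ (k : Type) [Field k] [NumberField k] [IsTotallyReal k] (ε : ℝ), 0 < ε →
    ∃ (C : ℝ) (A : ℕ), 0 < C ∧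
    ∀ (X η : ℝ) (ι : Type) (K : ι → Type) [∀ i, Field (K i)]
      [∀ i, NumberField (K i)] [∀ i, Algebra k (K i)] (Φ : ∀ i, Pl k → K i →+* ℂ)
      (S : Finset (Idx K)) (f : Idx K → Ideal (𝓞 k)) (m : Idx K → Pl k → ℤ) (F : Idx K → ℂ → ℂ),
      1 ≤ X → 0 ≤ η → η ≤ 3 / 8 → Fmc k K Φ S f m F 0 X →
      (∀ p ∈ S, ∃ t : ℝ, (1 + |t| + ms (m p)) ^ A * cdc k f p ^ η < ‖F p (1 / 2 + t * I)‖) →
      (S.card : ℝ) ≤ C * X ^ (3 / 2 - 4 * η + ε)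

/-- (CO2c) almost all pairs `(K, f)`. -/
def T_CO2c : Prop :=
  ∀ (k : Type) [Field k] [NumberField k] [IsTotallyReal k] (ε : ℝ), 0 < ε →
    ∃ (C : ℝ) (A : ℕ), 0 < C ∧
    ∀ (X η : ℝ) (ι : Type) (K : ι → Type) [∀ i, Field (K i)]
      [∀ i, NumberField (K i)] [∀ i, Algebra k (K i)] (Φ : ∀ i, Pl k → K i →+* ℂ)
      (S : Finset (Idx K)) (f : Idx K → Ideal (𝓞 k)) (m : Idx K → Pl k → ℤ) (F : Idx K → ℂ → ℂ)
      (T : Finset (ι × Ideal (𝓞 k))), 1 ≤ X → 0 ≤ η → η ≤ 1 / 4 → Fmc k K Φ S f m F 0 X →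
      (∀ q ∈ T, ∃ p ∈ S, p.1 = q.1 ∧ f p = q.2 ∧ ∃ t : ℝ,
        (1 + |t| + ms (m p)) ^ A * cdc k f p ^ (1 / 8 + η) < ‖F p (1 / 2 + t * I)‖) →
      (T.card : ℝ) ≤ C * X ^ (1 - 4 * η + ε)

end Pool.Agent.H23.CMC
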